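import Pool.Agent.H77R3.Nas.TopB

/-! Task Top2 of project H839NAS (by helper77). -/

set_option autoImplicit false

namespace Pool.Agent.H77R3.Nas

open FirstOrder FirstOrder.Language
open Pool.Agent.Helper672.Plain (LSet Mem IsPair IsOrdPair Sym Zermelo)
open Pool.Agent.H635Amen (ZF)
open Pool.Agent.H310Cards
open Pool.Agent.H310Top
open Pool.Agent.H839R3.Nas

universe u

section top

variable {U : V → Prop} {N : Type u} [LSet.Structure N] (S : SM U N) {k t j : N}

/-- `a` is a limit point of the type given by `g` -/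
def LimPt (k t j : N) (g : V → Prop) (a : N) : Prop :=
  (∀ x, ¬ App j x a) ∧ ∀ W : AddSubgroup V, (W : Set V).Finite → InCl S k t j (Pat U W g) a

/-- a neighbourhood of a limit of the pattern contains the whole pattern -/
theorem lim_sub (hc : IsCompactification k t j S.D) (hH : Homog U) (e c : Finset V) {u a : N}
    (hj : S.sup e j) (hu : S.sup c u) (W : AddSubgroup V) (hW : (W : Set V).Finite)
    (he : (e : Set V) ⊆ W) (hcW : (c : Set V) ⊆ W) (g : V → Prop) (ha : ∀ x, ¬ App j x a)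
    (hcl : InCl S k t j (Pat U W g) a) (hut : Mem u t) (hau : Mem a u) (x : V)
    (hx : x ∈ Pat U W g) (hxW : x ∉ W) : ∃ y, App j (S.pt x) y ∧ Mem y u := by
  obtain ⟨x0, hx0, hx0W, h0⟩ := incl_avoid S hc ha hcl hut hau (W : Set V) hW
  exact val_conj S hH e c hj hu W hW he hcW x0 x hx0W hxW
    (fun h hh => (hx0 h hh).trans (hx h hh).symm) h0

/-- there is a finite subgroup that contains `E` and finite sets -/
theorem exists_W (E : AddSubgroup V) (hE : (E : Set V).Finite) (s : Finset V) :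
    ∃ W : AddSubgroup V, (W : Set V).Finite ∧ E ≤ W ∧ (s : Set V) ⊆ W := by
  classical
  refine ⟨sp (hE.toFinset ∪ s), sp_fin _, fun v hv => ?_, fun v hv => ?_⟩
  · exact sub_sp (hE.toFinset ∪ s) (by
      rw [Finset.mem_coe, Finset.mem_union]
      exact Or.inl (by simpa using hv))
  · exact sub_sp (hE.toFinset ∪ s) (by
      rw [Finset.mem_coe, Finset.mem_union]
      exact Or.inr hv)

/-- the limits of two types that differ at one place outside `E` are the same -/
theorem one_bit (hc : IsCompactification k t j S.D) (hH : Homog U) (e : Finset V)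
    (hj : S.sup e j)
    (hT : ∀ (H : AddSubgroup V) (w : V), (H : Set V).Finite → (e : Set V) ⊆ H → w ∉ H →
      ∀ f f' : V → Prop, (∀ v, v ≠ w → (f v ↔ f' v)) →
      ∃ q, InCl S k t j (Pat U {v | v ∈ H ∨ v + w ∈ H} f) q ∧
        InCl S k t j (Pat U {v | v ∈ H ∨ v + w ∈ H} f') q)
    (E : AddSubgroup V) (hE : (E : Set V).Finite) (he : (e : Set V) ⊆ E) (w : V) (hw : w ∉ E)
    (g g' : V → Prop) (hg : ∀ v, v ≠ w → (g v ↔ g' v)) (hgw : ¬ (g w ↔ g' w)) (a a' : N)
    (ha : LimPt S k t j g a) (ha' : LimPt S k t j g' a') : a = a' := by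
  classical
  by_contra hne
  have hak : Mem a k := (ha.2 E hE).1
  have hak' : Mem a' k := (ha'.2 E hE).1
  obtain ⟨O, O', hO, hO', haO, haO', hdis⟩ := hc.haus a a' hak hak' hne
  obtain ⟨u, hu, hau, hclu⟩ := regular S hc haO hO
  obtain ⟨u', hu', hau', hclu'⟩ := regular S hc haO' hO'
  obtain ⟨c, hcu⟩ := S.sup_ex u
  obtain ⟨c', hcu'⟩ := S.sup_ex u'
  obtain ⟨W, hWf, hEW, hsW⟩ := exists_W E hE (c ∪ c' ∪ {w})
  have hcW : (c : Set V) ⊆ W := fun v hv => hsW (by simp only [Finset.coe_union]; exact Or.inl (Or.inl hv))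
  have hcW' : (c' : Set V) ⊆ W := fun v hv => hsW (by simp only [Finset.coe_union]; exact Or.inl (Or.inr hv))
  have hwW : w ∈ W := hsW (by simp)
  obtain ⟨H, hHW, hEH, hwH, hset⟩ := hyper W E w hEW hwW hw
  obtain ⟨q, hq, hq'⟩ := hT H w (hWf.subset hHW) (fun v hv => hEH (he hv)) hwH g g' hg
  rw [hset] at hq hq'
  have heW : (e : Set V) ⊆ W := fun v hv => hEW (he hv)
  -- `q` is not an image point
  have hqn : ∀ x, ¬ App j x q := by
    intro x hx
    obtain ⟨u0, hu0, hqu0, h0⟩ := hc.disc x q hx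
    obtain ⟨x1, hx1, y1, hy1, hyu1⟩ := hq.2 u0 hu0 hqu0
    obtain ⟨x2, hx2, y2, hy2, hyu2⟩ := hq'.2 u0 hu0 hqu0
    have e1 := h0 _ _ hy1 hyu1
    have e2 := h0 _ _ hy2 hyu2
    subst e1
    subst e2
    have e3 : x1 = x2 := S.inj (hc.inj.2 _ _ _ hy1 hy2)
    subst e3
    exact hgw ((hx1 w hwW).symm.trans (hx2 w hwW))
  have hqO : Mem q O := by
    refine hclu q hq.1 fun v hv hqv => ?_
    obtain ⟨x, hx, hxW, y, hy, hyv⟩ := incl_avoid S hc hqn hq hv hqv (W : Set V) hWf
    obtain ⟨y', hy', hyu'⟩ := lim_sub S hc hH e c hj hcu W hWf heW hcW g ha.1 (ha.2 W hWf) hu hau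
      x hx hxW
    rw [j_uniq S hc hy' hy] at hyu'
    exact ⟨y, hyv, hyu'⟩
  have hqO' : Mem q O' := by
    refine hclu' q hq'.1 fun v hv hqv => ?_
    obtain ⟨x, hx, hxW, y, hy, hyv⟩ := incl_avoid S hc hqn hq' hv hqv (W : Set V) hWf
    obtain ⟨y', hy', hyu'⟩ := lim_sub S hc hH e c' hj hcu' W hWf heW hcW' g' ha'.1 (ha'.2 W hWf)
      hu' hau' x hx hxW
    rw [j_uniq S hc hy' hy] at hyu'
    exact ⟨y, hyv, hyu'⟩
  exact hdis q hqO hqO'

/-- the limits of two types that agree on `E` are the same -/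
theorem many_bits (hc : IsCompactification k t j S.D) (hH : Homog U) (e : Finset V)
    (hj : S.sup e j)
    (hT : ∀ (H : AddSubgroup V) (w : V), (H : Set V).Finite → (e : Set V) ⊆ H → w ∉ H →
      ∀ f f' : V → Prop, (∀ v, v ≠ w → (f v ↔ f' v)) →
      ∃ q, InCl S k t j (Pat U {v | v ∈ H ∨ v + w ∈ H} f) q ∧
        InCl S k t j (Pat U {v | v ∈ H ∨ v + w ∈ H} f') q)
    (hL : ∀ g : V → Prop, {v | g v}.Finite → ∃ a, (∀ x, ¬ App j x a) ∧
      (∀ W : AddSubgroup V, (W : Set V).Finite → InCl S k t j (Pat U W g) a) ∧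
      ∀ b, (∀ W : AddSubgroup V, (W : Set V).Finite → InCl S k t j (Pat U W g) b) → b = a)
    (E : AddSubgroup V) (hE : (E : Set V).Finite) (he : (e : Set V) ⊆ E) (s : Finset V) :
    (∀ v ∈ s, v ∉ E) → ∀ (g g' : V → Prop), {v | g v}.Finite → {v | g' v}.Finite →
    (∀ v, v ∉ s → (g v ↔ g' v)) → ∀ a a' : N,
    LimPt S k t j g a → LimPt S k t j g' a' → a = a' := by
  classical
  have huniq : ∀ g : V → Prop, {v | g v}.Finite → ∀ a a' : N, LimPt S k t j g a →
      LimPt S k t j g a' → a = a' := by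
    intro g hg a a' ha ha'
    obtain ⟨b, -, -, hb⟩ := hL g hg
    rw [hb a ha.2, hb a' ha'.2]
  induction s using Finset.induction_on with
  | empty =>
    intro _ g g' hg hg' h a a' ha ha'
    have : g = g' := by
      funext v
      exact propext (h v (Finset.notMem_empty v))
    subst this
    exact huniq g hg a a' ha ha'
  | insert w s hws ih =>
    intro hs g g' hg hg' h a a' ha ha'
    -- change the value at `w`
    let g1 : V → Prop := fun v => if v = w then g' v else g v
    have hg1 : {v | g1 v}.Finite := by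
      refine (hg.union hg').subset fun v hv => ?_
      change (if v = w then g' v else g v) at hv
      by_cases hvw : v = w
      · rw [if_pos hvw] at hv
        exact Or.inr hv
      · rw [if_neg hvw] at hv
        exact Or.inl hv
    obtain ⟨b, hb1, hb2, -⟩ := hL g1 hg1
    have hbl : LimPt S k t j g1 b := ⟨hb1, hb2⟩
    have e2 : b = a' := by
      refine ih (fun v hv => hs v (Finset.mem_insert_of_mem hv)) g1 g' hg1 hg' (fun v hv => ?_) b a'
        hbl ha'
      change (if v = w then g' v else g v) ↔ g' v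
      by_cases hvw : v = w
      · rw [if_pos hvw]
      · rw [if_neg hvw]
        exact h v (by
          rw [Finset.mem_insert]
          tauto)
    have e1 : a = b := by
      by_cases hgw : g w ↔ g' w
      · have : g = g1 := by
          funext v
          change g v = (if v = w then g' v else g v)
          by_cases hvw : v = w
          · rw [if_pos hvw, hvw]
            exact propext hgw
          · rw [if_neg hvw]
        rw [← this] at hbl
        exact huniq g hg a b ha hbl
      · refine one_bit S hc hH e hj hT E hE he w (hs w (Finset.mem_insert_self w s)) g g1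
          (fun v hv => ?_) ?_ a b ha hbl
        · change g v ↔ (if v = w then g' v else g v)
          rw [if_neg hv]
        · change ¬ (g w ↔ (if w = w then g' w else g w))
          rwa [if_pos rfl]
    rw [e1, e2]

/-- a limit point of an orbit is the limit of the type that is false outside -/
theorem orbit_lim (hc : IsCompactification k t j S.D) (hH : Homog U) (e : Finset V)
    (hj : S.sup e j)
    (hT : ∀ (H : AddSubgroup V) (w : V), (H : Set V).Finite → (e : Set V) ⊆ H → w ∉ H →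
      ∀ f f' : V → Prop, (∀ v, v ≠ w → (f v ↔ f' v)) →
      ∃ q, InCl S k t j (Pat U {v | v ∈ H ∨ v + w ∈ H} f) q ∧
        InCl S k t j (Pat U {v | v ∈ H ∨ v + w ∈ H} f') q)
    (hL : ∀ g : V → Prop, {v | g v}.Finite → ∃ a, (∀ x, ¬ App j x a) ∧
      (∀ W : AddSubgroup V, (W : Set V).Finite → InCl S k t j (Pat U W g) a) ∧
      ∀ b, (∀ W : AddSubgroup V, (W : Set V).Finite → InCl S k t j (Pat U W g) b) → b = a)
    (E : AddSubgroup V) (hE : (E : Set V).Finite) (he : (e : Set V) ⊆ E) (f : V → Prop)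
    (p a : N) (hp : ∀ x, ¬ App j x p) (hcl : InCl S k t j (Pat U E f) p)
    (ha : LimPt S k t j (fun v => f v ∧ v ∈ E) a) : p = a := by
  classical
  by_contra hne
  have hak : Mem a k := (ha.2 E hE).1
  obtain ⟨u, v, hu, hv, hpu, hav, hdis⟩ := hc.haus p a hcl.1 hak hne
  obtain ⟨c, hcu⟩ := S.sup_ex u
  obtain ⟨c', hcv⟩ := S.sup_ex v
  obtain ⟨W, hWf, hEW, hsW⟩ := exists_W E hE (c ∪ c')
  have hcW : (c : Set V) ⊆ W := fun v hv => hsW (by simp only [Finset.coe_union]; exact Or.inl hv)
  have hcW' : (c' : Set V) ⊆ W := fun v hv => hsW (by simp only [Finset.coe_union]; exact Or.inr hv)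
  have heW : (e : Set V) ⊆ W := fun v hv => hEW (he hv)
  obtain ⟨x, hx, hxW, hxu⟩ := incl_avoid S hc hp hcl hu hpu (W : Set V) hWf
  -- the pattern of `x` on `W`, false outside of `W`
  let g : V → Prop := fun h => U (x + h) ∧ h ∈ W
  have hg : {v | g v}.Finite := hWf.subset fun v hv => hv.2
  obtain ⟨b, hb1, hb2, -⟩ := hL g hg
  have hba : b = a := by
    refine many_bits S hc hH e hj hT hL E hE he (hWf.toFinset.filter fun v => v ∉ E)
      (fun v hv => (Finset.mem_filter.1 hv).2) g (fun v => f v ∧ v ∈ E) hg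
      (hE.subset fun v hv => hv.2) (fun v hv => ?_) b a ⟨hb1, hb2⟩ ha
    change (U (x + v) ∧ v ∈ W) ↔ (f v ∧ v ∈ E)
    by_cases hvE : v ∈ E
    · have h1 := hx v hvE
      have h2 := hEW hvE
      tauto
    · have h1 : v ∉ W := by
        intro hvW
        exact hv (Finset.mem_filter.2 ⟨by simpa using hvW, hvE⟩)
      tauto
  rw [← hba] at hav
  obtain ⟨x', hx', hxW', y', hy', hyv'⟩ := incl_avoid S hc hb1 (hb2 W hWf) hv hav (W : Set V) hWf
  obtain ⟨y, hy, hyu⟩ := val_conj S hH e c hj hcu W hWf heW hcW x x' hxW hxW' (fun h hh => by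
    have h1 := hx' h hh
    change U (x' + h) ↔ (U (x + h) ∧ h ∈ W) at h1
    have h2 : h ∈ W := hh
    tauto) hxu
  rw [j_uniq S hc hy' hy] at hyv'
  exact hdis y hyu hyv'

end top

theorem taskTop2 : TaskTop2 := by
  intro hT hL U hE hH N _ S k t j hc e hk ht hj E hEf he f p q hp hq hcp hcq
  have hT' := hT U hE hH N S k t j hc e hk ht hj
  have hL' := hL U hE hH N S k t j hc
  obtain ⟨a, ha1, ha2, -⟩ := hL' (fun v => f v ∧ v ∈ E) (hEf.subset fun v hv => hv.2)
  have h1 := orbit_lim S hc hH e hj hT' hL' E hEf he f p a hp hcp ⟨ha1, ha2⟩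
  have h2 := orbit_lim S hc hH e hj hT' hL' E hEf he f q a hq hcq ⟨ha1, ha2⟩
  rw [h1, h2]

end Pool.Agent.H77R3.Nas
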