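import Pool.Agent.H839R3.Nas.Stmts

/-! Tools for task Top2 of project H839NAS (by helper77): definability, homogeneity and the
topology of a compactification in the model. -/

set_option autoImplicit false

namespace Pool.Agent.H77R3.Nas

open FirstOrder FirstOrder.Language
open Pool.Agent.Helper672.Plain (LSet Mem IsPair IsOrdPair Sym Zermelo)
open Pool.Agent.H635Amen (ZF)
open Pool.Agent.H310Cards
open Pool.Agent.H310Top
open Pool.Agent.H839R3.Nas

universe u

section dz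

variable {N : Type u} [LSet.Structure N] {ι : Type}

theorem dz_congr {p q : (ι → N) → Prop} (hp : DZ p) (h : ∀ v, p v ↔ q v) : DZ q := by
  have : {v | p v} = {v | q v} := by ext v; exact h v
  unfold DZ at hp ⊢
  rwa [← this]

theorem dz_and {p q : (ι → N) → Prop} (hp : DZ p) (hq : DZ q) : DZ (fun v => p v ∧ q v) :=
  Set.Definable.inter hp hq

theorem dz_or {p q : (ι → N) → Prop} (hp : DZ p) (hq : DZ q) : DZ (fun v => p v ∨ q v) :=
  Set.Definable.union hp hq

theorem dz_not {p : (ι → N) → Prop} (hp : DZ p) : DZ (fun v => ¬ p v) :=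
  Set.Definable.compl hp

theorem dz_imp {p q : (ι → N) → Prop} (hp : DZ p) (hq : DZ q) : DZ (fun v => p v → q v) :=
  dz_congr (dz_or (dz_not hp) hq) fun _ => imp_iff_not_or.symm

theorem dz_iff {p q : (ι → N) → Prop} (hp : DZ p) (hq : DZ q) : DZ (fun v => (p v ↔ q v)) :=
  dz_congr (dz_and (dz_imp hp hq) (dz_imp hq hp)) fun _ => iff_iff_implies_and_implies.symm

theorem dz_ex {p : (ι → N) → N → Prop}
    (h : DZ (fun w : ι ⊕ Unit → N => p (fun i => w (Sum.inl i)) (w (Sum.inr ())))) :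
    DZ (fun v => ∃ x, p v x) := by
  have h1 := Set.Definable.exists_of_finite h
  have : {v : ι → N | ∃ x, p v x} = {v : ι → N | ∃ u : Unit → N, Sum.elim v u ∈
      {w : ι ⊕ Unit → N | p (fun i => w (Sum.inl i)) (w (Sum.inr ()))}} := by
    ext v
    constructor
    · rintro ⟨x, hx⟩
      exact ⟨fun _ => x, hx⟩
    · rintro ⟨x, hx⟩
      exact ⟨x (), hx⟩
  unfold DZ
  rw [this]
  exact h1

theorem dz_all {p : (ι → N) → N → Prop}
    (h : DZ (fun w : ι ⊕ Unit → N => p (fun i => w (Sum.inl i)) (w (Sum.inr ())))) :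
    DZ (fun v => ∀ x, p v x) :=
  dz_congr (dz_not (dz_ex (p := fun v x => ¬ p v x) (dz_not h))) fun v => by
    simp only [not_exists, not_not]

/-- the membership symbol -/
def memS : LSet.Relations 2 := Sym.mem

theorem dz_mem (i j : ι) : DZ (fun v : ι → N => Mem (v i) (v j)) := by
  unfold DZ
  rw [Set.empty_definable_iff]
  refine ⟨Relations.formula₂ memS (Term.var i) (Term.var j), ?_⟩
  ext v
  simp only [Set.mem_ofPred_eq]
  rw [Formula.realize_rel₂]
  rfl

theorem dz_eq (i j : ι) : DZ (fun v : ι → N => v i = v j) := by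
  unfold DZ
  rw [Set.empty_definable_iff]
  refine ⟨(Term.var i).equal (Term.var j), ?_⟩
  ext v
  simp only [Set.mem_ofPred_eq]
  rw [Formula.realize_equal]
  rfl

theorem dz_pair (i j k : ι) : DZ (fun v : ι → N => IsPair (v i) (v j) (v k)) :=
  dz_all (p := fun v z => Mem z (v i) ↔ z = v j ∨ z = v k)
    (dz_iff (dz_mem (Sum.inr ()) (Sum.inl i))
      (dz_or (dz_eq (Sum.inr ()) (Sum.inl j)) (dz_eq (Sum.inr ()) (Sum.inl k))))

theorem dz_ordPair (i j k : ι) : DZ (fun v : ι → N => IsOrdPair (v i) (v j) (v k)) :=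
  dz_ex (p := fun v s => ∃ d, IsPair s (v j) (v j) ∧ IsPair d (v j) (v k) ∧ IsPair (v i) s d)
    (dz_ex (p := fun (v : ι ⊕ Unit → N) d => IsPair (v (Sum.inr ())) (v (Sum.inl j)) (v (Sum.inl j)) ∧
        IsPair d (v (Sum.inl j)) (v (Sum.inl k)) ∧ IsPair (v (Sum.inl i)) (v (Sum.inr ())) d)
      (dz_and (dz_pair (Sum.inl (Sum.inr ())) (Sum.inl (Sum.inl j)) (Sum.inl (Sum.inl j)))
        (dz_and (dz_pair (Sum.inr ()) (Sum.inl (Sum.inl j)) (Sum.inl (Sum.inl k)))
          (dz_pair (Sum.inl (Sum.inl i)) (Sum.inl (Sum.inr ())) (Sum.inr ())))))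

theorem dz_app (i j k : ι) : DZ (fun v : ι → N => App (v i) (v j) (v k)) :=
  dz_ex (p := fun v q => IsOrdPair q (v j) (v k) ∧ Mem q (v i))
    (dz_and (dz_ordPair (Sum.inr ()) (Sum.inl j) (Sum.inl k)) (dz_mem (Sum.inr ()) (Sum.inl i)))

/-- the value of `v j` under `v i` is in `v k` -/
theorem dz_val (i j k : ι) : DZ (fun v : ι → N => ∃ y, App (v i) (v j) y ∧ Mem y (v k)) :=
  dz_ex (p := fun v y => App (v i) (v j) y ∧ Mem y (v k))
    (dz_and (dz_app (Sum.inl i) (Sum.inl j) (Sum.inr ())) (dz_mem (Sum.inr ()) (Sum.inl k)))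

/-- separation -/
theorem dz_sep [hZ : ZF N] {p : (ι ⊕ Unit → N) → Prop} (h : DZ p) (c : ι → N) (x : N) :
    ∃ y, ∀ z, Mem z y ↔ Mem z x ∧ p (Sum.elim c fun _ => z) := by
  refine hZ.separation {z | p (Sum.elim c fun _ => z)} ?_ x
  unfold DZ at h
  rw [Set.empty_definable_iff] at h
  obtain ⟨ψ, hψ⟩ := h
  unfold Set.Definable₁
  rw [Set.definable_iff_exists_formula_sum]
  refine ⟨ψ.relabel (Sum.elim (fun i => Sum.inl ⟨c i, trivial⟩) fun _ => Sum.inr 0), ?_⟩
  ext v
  have h1 : ∀ w : ι ⊕ Unit → N, p w ↔ ψ.Realize w := fun w => by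
    have : w ∈ {v | p v} ↔ w ∈ Set.ofPred ψ.Realize := by rw [hψ]
    exact this
  simp only [Set.mem_ofPred_eq]
  rw [Formula.realize_relabel, h1]
  apply iff_of_eq
  congr 1
  funext i
  rcases i with i | i <;> rfl

end dz

end Pool.Agent.H77R3.Nas
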