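import Pool.Agent.H77R3.Nas.TopA

/-! Tools for task Top2 of project H839NAS (by helper77), second part. -/

set_option autoImplicit false

namespace Pool.Agent.H77R3.Nas

open FirstOrder FirstOrder.Language
open Pool.Agent.Helper672.Plain (LSet Mem IsPair IsOrdPair Sym Zermelo)
open Pool.Agent.H635Amen (ZF)
open Pool.Agent.H310Cards
open Pool.Agent.H310Top
open Pool.Agent.H839R3.Nas

universe u

/-! ### linear algebra over the field with two elements -/

theorem add_self (v : V) : v + v = 0 := by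
  have h : (2 : ZMod 2) • v = 0 := by
    have : (2 : ZMod 2) = 0 := by decide
    rw [this, zero_smul]
  rwa [two_smul] at h

theorem add_cancel (v w : V) : v + w + w = v := by rw [add_assoc, add_self, add_zero]

/-- the span of a finite set -/
noncomputable def sp (s : Finset V) : AddSubgroup V :=
  (Submodule.span (ZMod 2) (s : Set V)).toAddSubgroup

theorem sp_fin (s : Finset V) : ((sp s : AddSubgroup V) : Set V).Finite := by
  have : Module.Finite (ZMod 2) (Submodule.span (ZMod 2) (s : Set V)) := Module.Finite.span_finset _ s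
  have h2 : Finite (Submodule.span (ZMod 2) (s : Set V)) := Module.finite_of_finite (ZMod 2)
  have h3 : ((Submodule.span (ZMod 2) (s : Set V) : Submodule (ZMod 2) V) : Set V).Finite :=
    Set.toFinite _
  exact h3

theorem sub_sp (s : Finset V) : (s : Set V) ⊆ sp s := Submodule.subset_span

/-- a functional that vanishes on `W` with value one at `x` -/
theorem exists_fun (W : AddSubgroup V) (x : V) (hx : x ∉ W) :
    ∃ l : V →ₗ[ZMod 2] ZMod 2, (∀ w ∈ W, l w = 0) ∧ l x = 1 := by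
  obtain ⟨f, hf, hW⟩ := Submodule.exists_le_ker_of_notMem
    (p := AddSubgroup.toZModSubmodule 2 W) (v := x) (by simpa using hx)
  refine ⟨f, fun w hw => ?_, ?_⟩
  · exact hW (show w ∈ AddSubgroup.toZModSubmodule 2 W by simpa using hw)
  · revert hf
    generalize f x = c
    revert c
    decide

theorem hyper (W E : AddSubgroup V) (w : V) (hE : E ≤ W) (hw : w ∈ W) (hwE : w ∉ E) :
    ∃ H : AddSubgroup V, H ≤ W ∧ E ≤ H ∧ w ∉ H ∧ {v | v ∈ H ∨ v + w ∈ H} = (W : Set V) := by
  obtain ⟨l, h1, h2⟩ := exists_fun E w hwE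
  refine ⟨W ⊓ l.toAddMonoidHom.ker, inf_le_left, ?_, ?_, ?_⟩
  · intro v hv
    exact ⟨hE hv, h1 v hv⟩
  · rintro ⟨-, h⟩
    have : l w = 0 := h
    rw [h2] at this
    exact one_ne_zero this
  · ext v
    constructor
    · rintro (h | h)
      · exact h.1
      · have := W.add_mem h.1 hw
        rwa [add_cancel] at this
    · intro h
      have h3 : l v = 0 ∨ l v = 1 := by
        generalize l v = c
        revert c
        decide
      rcases h3 with h3 | h3
      · exact Or.inl ⟨h, h3⟩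
      · refine Or.inr ⟨W.add_mem h hw, ?_⟩
        show l (v + w) = 0
        rw [map_add, h3, h2]
        decide

/-- homogeneity: two points with the same pattern over `W` are conjugate over `W` -/
theorem conj_pt {U : V → Prop} (hH : Homog U) (W : AddSubgroup V) (hW : (W : Set V).Finite)
    (x x' : V) (hx : x ∉ W) (hx' : x' ∉ W) (hp : ∀ h ∈ W, (U (x + h) ↔ U (x' + h))) :
    ∃ h : V ≃+ V, Aut U W h ∧ h x = x' := by
  classical
  obtain ⟨l, h1, h2⟩ := exists_fun W x hx
  -- the subgroup generated by `W` and `x`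
  let A : AddSubgroup V := sp (insert x hW.toFinset)
  have hAf : (A : Set V).Finite := sp_fin _
  have hxA : x ∈ A := sub_sp _ (by simp)
  have hWA : ∀ w ∈ W, w ∈ A := fun w hw => sub_sp _ (by simp [hw])
  have hA : ∀ v ∈ A, v ∈ W ∨ v + x ∈ W := by
    intro v hv
    have h3 : v ∈ Submodule.span (ZMod 2) (insert x (W : Set V)) := by
      have : v ∈ Submodule.span (ZMod 2) ((insert x hW.toFinset : Finset V) : Set V) := hv
      simpa using this
    rw [Submodule.mem_span_insert] at h3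
    obtain ⟨a, z, hz, rfl⟩ := h3
    have hz' : z ∈ W := by
      have h4 : Submodule.span (ZMod 2) (W : Set V) ≤ AddSubgroup.toZModSubmodule 2 W := by
        rw [Submodule.span_le]
        intro y hy
        simpa using hy
      simpa using h4 hz
    have h5 : a = 0 ∨ a = 1 := by
      clear hv hz
      revert a
      decide
    rcases h5 with rfl | rfl
    · left
      rw [zero_smul, zero_add]
      exact hz'
    · right
      rw [one_smul, add_comm x z, add_cancel]
      exact hz'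
  let φ : V →+ V := AddMonoidHom.id V + ((LinearMap.toSpanSingleton (ZMod 2) V (x' + x)).comp l).toAddMonoidHom
  have hφ : ∀ v, φ v = v + l v • (x' + x) := fun v => rfl
  have hφW : ∀ w ∈ W, φ w = w := by
    intro w hw
    rw [hφ, h1 w hw, zero_smul, add_zero]
  have hφx : φ x = x' := by
    rw [hφ, h2, one_smul, add_comm x' x, ← add_assoc, add_self, zero_add]
  have hφ2 : ∀ v, v + x ∈ W → φ v = v + x + x' := by
    intro v hv
    have h3 : φ v = φ (v + x) + φ x := by rw [← map_add, add_cancel]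
    rw [h3, hφW _ hv, hφx]
  obtain ⟨h, hU, hh⟩ := hH A (φ.comp A.subtype) hAf (by
    rw [injective_iff_map_eq_zero]
    rintro ⟨v, hv⟩ h0
    have h0' : φ v = 0 := h0
    apply Subtype.ext
    show v = 0
    rcases hA v hv with h3 | h3
    · rwa [hφW v h3] at h0'
    · exfalso
      rw [hφ2 v h3] at h0'
      apply hx'
      have : x' = v + x := by
        have h4 : v + x + x' + x' = 0 + x' := by rw [h0']
        rw [add_cancel, zero_add] at h4
        exact h4.symm
      rw [this]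
      exact h3) (by
    rintro ⟨v, hv⟩
    show U (φ v) ↔ U v
    rcases hA v hv with h3 | h3
    · rw [hφW v h3]
    · rw [hφ2 v h3]
      have h4 := hp (v + x) h3
      have e1 : x + (v + x) = v := by rw [add_comm x (v + x), add_cancel]
      rw [e1, add_comm x' (v + x)] at h4
      exact h4.symm)
  refine ⟨h, ⟨hU, ?_⟩, ?_⟩
  · intro w hw
    have := hh ⟨w, hWA w hw⟩
    exact this.trans (hφW w hw)
  · have := hh ⟨x, hxA⟩
    exact this.trans hφx

/-! ### topology -/

section top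

variable {N : Type u} [LSet.Structure N]

theorem ordPair_inj {q x y x' y' : N} (h : IsOrdPair q x y) (h' : IsOrdPair q x' y') :
    x = x' ∧ y = y' := by
  obtain ⟨s, d, h1, h2, h3⟩ := h
  obtain ⟨s', d', h1', h2', h3'⟩ := h'
  have e1 : x = x' := by
    rcases (h3 s').1 ((h3' s').2 (Or.inl rfl)) with e | e
    · subst e
      rcases (h1 x').1 ((h1' x').2 (Or.inl rfl)) with e | e <;> exact e.symm
    · subst e
      rcases (h1' x).1 ((h2 x).2 (Or.inl rfl)) with e | e <;> exact e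
  subst e1
  refine ⟨rfl, ?_⟩
  rcases (h3 d').1 ((h3' d').2 (Or.inr rfl)) with e | e
  · subst e
    have e2 : y' = x := by
      rcases (h1 y').1 ((h2' y').2 (Or.inr rfl)) with e | e <;> exact e
    rcases (h3' d).1 ((h3 d).2 (Or.inr rfl)) with e | e
    · subst e
      rcases (h1' y).1 ((h2 y).2 (Or.inr rfl)) with e | e <;> rw [e, e2]
    · subst e
      rcases (h2' y).1 ((h2 y).2 (Or.inr rfl)) with e | e
      · rw [e, e2]
      · exact e
  · subst e
    rcases (h2 y').1 ((h2' y').2 (Or.inr rfl)) with e | e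
    · rcases (h2' y).1 ((h2 y).2 (Or.inr rfl)) with e' | e'
      · rw [e, e']
      · exact e'
    · exact e.symm

variable {U : V → Prop} (S : SM U N) {k t j : N}

theorem j_mem (hc : IsCompactification k t j S.D) {x y : N} (h : App j x y) : Mem y k := by
  obtain ⟨q, hq, hqj⟩ := h
  obtain ⟨x', y', -, hy', hq'⟩ := hc.inj.1.1 q hqj
  rw [(ordPair_inj hq hq').2]
  exact hy'

theorem j_ex (hc : IsCompactification k t j S.D) (x : V) : ∃ y, App j (S.pt x) y := by
  obtain ⟨y, hy, -⟩ := hc.inj.1.2 (S.pt x) ((S.mem_D _).2 ⟨x, rfl⟩)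
  exact ⟨y, hy⟩

theorem j_uniq (hc : IsCompactification k t j S.D) {x : V} {y y' : N} (h : App j (S.pt x) y)
    (h' : App j (S.pt x) y') : y = y' :=
  (hc.inj.1.2 (S.pt x) ((S.mem_D _).2 ⟨x, rfl⟩)).unique h h'

theorem inter_ex (hc : IsCompactification k t j S.D) {u v : N} (hu : Mem u t) (hv : Mem v t) :
    ∃ w, Mem w t ∧ ∀ z, Mem z w ↔ Mem z u ∧ Mem z v := by
  have := S.zf
  obtain ⟨w, hw⟩ := dz_sep (p := fun w : Unit ⊕ Unit → N => Mem (w (Sum.inr ())) (w (Sum.inl ())))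
    (dz_mem _ _) (fun _ => v) u
  exact ⟨w, hc.top.inter u v w hu hv hw, hw⟩

theorem shrink (hc : IsCompactification k t j S.D) {α : Type*} (F : Set α) (hF : F.Finite)
    (P : α → N → Prop) (hmono : ∀ i u w, P i u → (∀ z, Mem z w → Mem z u) → P i w) (a u0 : N)
    (hu0 : Mem u0 t) (ha : Mem a u0) (h : ∀ i ∈ F, ∃ u, Mem u t ∧ Mem a u ∧ P i u) :
    ∃ w, Mem w t ∧ Mem a w ∧ (∀ z, Mem z w → Mem z u0) ∧ ∀ i ∈ F, P i w := by
  induction F, hF using Set.Finite.induction_on with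
  | empty => exact ⟨u0, hu0, ha, fun _ hz => hz, fun i hi => absurd hi (Set.notMem_empty i)⟩
  | insert hi hF ih =>
    obtain ⟨w, hw, haw, hw0, hwF⟩ := ih fun i hi => h i (Set.mem_insert_of_mem _ hi)
    obtain ⟨u, hu, hau, hPu⟩ := h _ (Set.mem_insert _ _)
    obtain ⟨v, hv, hv2⟩ := inter_ex S hc hw hu
    refine ⟨v, hv, (hv2 a).2 ⟨haw, hau⟩, fun z hz => hw0 z ((hv2 z).1 hz).1, fun i hi => ?_⟩
    rcases Set.mem_insert_iff.1 hi with rfl | hi
    · exact hmono _ u v hPu fun z hz => ((hv2 z).1 hz).2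
    · exact hmono _ w v (hwF i hi) fun z hz => ((hv2 z).1 hz).1

theorem incl_avoid (hc : IsCompactification k t j S.D) {P : Set V} {p u : N}
    (hp : ∀ x, ¬ App j x p) (h : InCl S k t j P p) (hu : Mem u t) (hpu : Mem p u) (W : Set V)
    (hW : W.Finite) : ∃ x ∈ P, x ∉ W ∧ ∃ y, App j (S.pt x) y ∧ Mem y u := by
  obtain ⟨w, hw, hpw, hw0, hwW⟩ := shrink S hc W hW
    (fun x v => ∀ y, App j (S.pt x) y → ¬ Mem y v) (fun i u w h1 h2 y hy hyw => h1 y hy (h2 y hyw))
    p u hu hpu (by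
      intro x _
      obtain ⟨y, hy⟩ := j_ex S hc x
      have hne : p ≠ y := by
        rintro rfl
        exact hp _ hy
      obtain ⟨v, v', hv, hv', h1, h2, h3⟩ := hc.haus p y h.1 (j_mem S hc hy) hne
      refine ⟨v, hv, h1, fun y' hy' hyv => ?_⟩
      rw [j_uniq S hc hy' hy] at hyv
      exact h3 y hyv h2)
  obtain ⟨x, hxP, y, hy, hyw⟩ := h.2 w hw hpw
  exact ⟨x, hxP, fun hxW => hwW x hxW y hy hyw, y, hy, hw0 y hyw⟩

theorem regular (hc : IsCompactification k t j S.D) {a O : N} (haO : Mem a O) (hO : Mem O t) :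
    ∃ u, Mem u t ∧ Mem a u ∧ ∀ q, Mem q k →
      (∀ v, Mem v t → Mem q v → ∃ z, Mem z v ∧ Mem z u) → Mem q O := by
  have := S.zf
  have hak : Mem a k := hc.top.sub O hO a haO
  obtain ⟨c, hcc⟩ := dz_sep (ι := Fin 3) (p := fun w => w (Sum.inr ()) = w (Sum.inl 0) ∨
    ∃ v', Mem v' (w (Sum.inl 1)) ∧ Mem (w (Sum.inl 2)) v' ∧
      ∀ z, ¬ (Mem z (w (Sum.inr ())) ∧ Mem z v'))
    (dz_or (dz_eq _ _) (dz_ex (p := fun w v' => Mem v' (w (Sum.inl 1)) ∧ Mem (w (Sum.inl 2)) v' ∧
      ∀ z, ¬ (Mem z (w (Sum.inr ())) ∧ Mem z v'))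
      (dz_and (dz_mem (Sum.inr ()) (Sum.inl (Sum.inl 1)))
        (dz_and (dz_mem (Sum.inl (Sum.inl 2)) (Sum.inr ()))
          (dz_all (p := fun w z => ¬ (Mem z (w (Sum.inl (Sum.inr ()))) ∧ Mem z (w (Sum.inr ()))))
            (dz_not (dz_and (dz_mem (Sum.inr ()) (Sum.inl (Sum.inl (Sum.inr ()))))
              (dz_mem (Sum.inr ()) (Sum.inl (Sum.inr ()))))))))))
    ![O, t, a] t
  have hcc' : ∀ z, Mem z c ↔ Mem z t ∧ (z = O ∨ ∃ v', Mem v' t ∧ Mem a v' ∧
      ∀ y, ¬ (Mem y z ∧ Mem y v')) := hcc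
  obtain ⟨c', hfin, hsub, hcov⟩ := hc.compact c (fun u hu => ((hcc' u).1 hu).1) (by
    intro z hz
    by_cases hza : z = a
    · subst hza
      exact ⟨O, (hcc' O).2 ⟨hO, Or.inl rfl⟩, haO⟩
    · obtain ⟨u, v, hu, hv, h1, h2, h3⟩ := hc.haus z a hz hak hza
      exact ⟨u, (hcc' u).2 ⟨hu, Or.inr ⟨v, hv, h2, fun y hy => h3 y hy.1 hy.2⟩⟩, h1⟩)
  obtain ⟨u, hu, hau, -, huF⟩ := shrink S hc {v | Mem v c'} (S.std c' hfin)
    (fun v u => v = O ∨ ∀ z, ¬ (Mem z v ∧ Mem z u))
    (fun v u w h1 h2 => by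
      rcases h1 with h1 | h1
      · exact Or.inl h1
      · exact Or.inr fun z hz => h1 z ⟨hz.1, h2 z hz.2⟩)
    a O hO haO (by
      intro v hv
      rcases ((hcc' v).1 (hsub v hv)).2 with h | ⟨v', h1, h2, h3⟩
      · exact ⟨O, hO, haO, Or.inl h⟩
      · exact ⟨v', h1, h2, Or.inr h3⟩)
  refine ⟨u, hu, hau, fun q hq hcl => ?_⟩
  obtain ⟨v, hv, hqv⟩ := hcov q hq
  rcases huF v hv with h | h
  · rw [← h]
    exact hqv
  · obtain ⟨z, hz1, hz2⟩ := hcl v ((hcc' v).1 (hsub v hv)).1 hqv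
    exact absurd ⟨hz1, hz2⟩ (h z)

theorem val_conj (hH : Homog U) (e c : Finset V) {u : N} (hj : S.sup e j) (hu : S.sup c u)
    (W : AddSubgroup V) (hW : (W : Set V).Finite) (he : (e : Set V) ⊆ W) (hcW : (c : Set V) ⊆ W)
    (x x' : V) (hx : x ∉ W) (hx' : x' ∉ W) (hp : ∀ h ∈ W, (U (x + h) ↔ U (x' + h)))
    (h : ∃ y, App j (S.pt x) y ∧ Mem y u) : ∃ y, App j (S.pt x') y ∧ Mem y u := by
  obtain ⟨f, hf, rfl⟩ := conj_pt hH W hW x x' hx hx' hp
  have hsub : ∀ s : Finset V, (s : Set V) ⊆ W → s ⊆ hW.toFinset := by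
    intro s hs v hv
    simpa using hs hv
  have hA : Aut U (hW.toFinset : Set V) f := ⟨hf.1, fun v hv => hf.2 v (by simpa using hv)⟩
  refine (S.key hW.toFinset f hA (Fin 3) (fun v => ∃ y, App (v 0) (v 1) y ∧ Mem y (v 2))
    (dz_val 0 1 2) ![j, S.pt x, u] ![j, S.pt (f x), u] ?_).1 h
  intro i
  fin_cases i
  · exact Or.inl ⟨rfl, S.sup_mono e _ _ (hsub e he) hj⟩
  · exact Or.inr ⟨x, rfl, rfl⟩
  · exact Or.inl ⟨rfl, S.sup_mono c _ _ (hsub c hcW) hu⟩

end top

end Pool.Agent.H77R3.Nas
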